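import Pool.Agent.H99.NR.Stm

/-! # NR: the probability of bad levels -/

set_option autoImplicit false

open MeasureTheory ProbabilityTheory

noncomputable section

open Classical

namespace Pool.Agent.H87.NR

open Pool.Agent.H99.NR

theorem geo (m : ℕ) : ∑ j ∈ Finset.range m, (1 / 2 : ℝ) ^ (j + 1) = 1 - (1 / 2) ^ m := by
  induction m with
  | zero => simp
  | succ m ih =>
    rw [Finset.sum_range_succ, ih]
    ring

theorem half_log (j : ℕ) : ((j : ℝ) + 1) * Real.log 2 ≤ 4 ^ j := by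
  have h2 : (j : ℝ) + 1 ≤ 4 ^ j := by
    have : j + 1 ≤ 4 ^ j := Nat.lt_pow_self (by norm_num : 1 < 4)
    exact_mod_cast this
  have h4 : Real.log 2 < 0.6931471808 := Real.log_two_lt_d9
  have h4' : 0 < Real.log 2 := Real.log_pos (by norm_num)
  have h7 : (0 : ℝ) ≤ (j : ℝ) + 1 := by positivity
  nlinarith

theorem half_exp (j : ℕ) : ((1 : ℝ) / 2) ^ (j + 1) = Real.exp (-((j + 1) * Real.log 2)) := by
  rw [Real.exp_neg, mul_comm, Real.exp_mul, Real.exp_log (by norm_num)]
  rw [one_div, inv_pow]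
  congr 1
  rw [← Real.rpow_natCast]
  push_cast
  rfl

theorem bad_lt {K L : ℝ} {n k : ℕ} {r : Fin n → ℝ} (hL : 0 ≤ L) (hb : bad K L n k r) : k < n := by
  have h1 : (cnt K n k r : ℝ) ≤ n := by
    have : cnt K n k r ≤ n := by
      unfold cnt
      exact (Finset.card_le_univ _).trans (by simp)
    exact_mod_cast this
  have h2 : 600 * (4 ^ k + L) < (cnt K n k r : ℝ) := hb
  have h3 : (k : ℝ) < 4 ^ k := by exact_mod_cast Nat.lt_pow_self (by norm_num : 1 < 4)
  have h4 : (k : ℝ) < n := by nlinarith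
  exact_mod_cast h4

theorem bad_one (hJ : S_JNT) (K L : ℝ) (n : ℕ) (ν : Measure ℝ) (hK : 1 ≤ K) (hL : 0 ≤ L)
    (hn : 1 ≤ n) (hν : Law K n ν) (k : ℕ) :
    (rowLaw n ν).real {r | bad K L n k r} ≤ Real.exp (-(593 * 4 ^ k)) := by
  have hp := hν.prob
  have : IsProbabilityMeasure (rowLaw n ν) := by unfold rowLaw; infer_instance
  obtain ⟨h1, h2⟩ := hJ K n ν hK hn hν 1 {k} zero_le_one
  simp only [Finset.sum_singleton, one_mul] at h1 h2
  have h3 := mul_meas_ge_le_integral_of_nonneg (μ := rowLaw n ν)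
    (f := fun r => Real.exp (cnt K n k r : ℝ)) (Filter.Eventually.of_forall fun r =>
      (Real.exp_pos _).le) h1 (Real.exp (600 * (4 ^ k + L)))
  have h4 : (rowLaw n ν).real {r | bad K L n k r} ≤
      (rowLaw n ν).real {r | Real.exp (600 * (4 ^ k + L)) ≤ Real.exp (cnt K n k r : ℝ)} := by
    apply measureReal_mono
    · intro r hr
      exact Real.exp_le_exp.mpr (le_of_lt hr)
    · exact measure_ne_top _ _
  have h5 : Real.exp (600 * (4 ^ k + L)) * (rowLaw n ν).real {r | bad K L n k r} ≤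
      Real.exp ((Real.exp 1 - 1) * 4 ^ (k + 1)) :=
    (mul_le_mul_of_nonneg_left h4 (Real.exp_pos _).le).trans (h3.trans h2)
  have h6 : (rowLaw n ν).real {r | bad K L n k r} ≤
      Real.exp ((Real.exp 1 - 1) * 4 ^ (k + 1) - 600 * (4 ^ k + L)) := by
    rw [Real.exp_sub, le_div_iff₀ (Real.exp_pos _), mul_comm]
    exact h5
  refine h6.trans (Real.exp_le_exp.mpr ?_)
  have he : Real.exp 1 < 2.7182818286 := Real.exp_one_lt_d9
  have h4k : (0 : ℝ) < 4 ^ k := by positivity
  rw [pow_succ]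
  nlinarith

theorem t_BAD (hJ : S_JNT) : S_BAD := by
  intro K L n ν hK hL hn hν κ
  have hp := hν.prob
  have : IsProbabilityMeasure (rowLaw n ν) := by unfold rowLaw; infer_instance
  have hsub : {r : Fin n → ℝ | ∃ k, κ ≤ k ∧ bad K L n k r} ⊆
      ⋃ j ∈ Finset.range n, {r | bad K L n (κ + j) r} := by
    rintro r ⟨k, hk, hb⟩
    rw [Set.mem_iUnion₂]
    refine ⟨k - κ, ?_, ?_⟩
    · rw [Finset.mem_range]
      have h5 : k < n := bad_lt hL hb
      omega
    · have : κ + (k - κ) = k := by omega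
      rw [this]
      exact hb
  have hterm : ∀ j : ℕ, (rowLaw n ν).real {r | bad K L n (κ + j) r} ≤
      Real.exp (-(500 * 4 ^ κ)) * (1 / 2) ^ (j + 1) := by
    intro j
    refine (bad_one hJ K L n ν hK hL hn hν (κ + j)).trans ?_
    rw [half_exp, ← Real.exp_add]
    apply Real.exp_le_exp.mpr
    have h3 : (1 : ℝ) ≤ 4 ^ κ := one_le_pow₀ (by norm_num)
    have h5 : (1 : ℝ) ≤ 4 ^ j := one_le_pow₀ (by norm_num)
    rw [pow_add]
    have h6 := half_log j
    have h8 : (4 : ℝ) ^ j ≤ 4 ^ κ * 4 ^ j := le_mul_of_one_le_left (by positivity) h3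
    have h9 : (4 : ℝ) ^ κ ≤ 4 ^ κ * 4 ^ j := le_mul_of_one_le_right (by positivity) h5
    linarith
  calc (rowLaw n ν).real {r | ∃ k, κ ≤ k ∧ bad K L n k r}
      ≤ (rowLaw n ν).real (⋃ j ∈ Finset.range n, {r | bad K L n (κ + j) r}) :=
        measureReal_mono hsub (measure_ne_top _ _)
    _ ≤ ∑ j ∈ Finset.range n, (rowLaw n ν).real {r | bad K L n (κ + j) r} :=
        measureReal_biUnion_finset_le _ _
    _ ≤ ∑ j ∈ Finset.range n, Real.exp (-(500 * 4 ^ κ)) * (1 / 2) ^ (j + 1) :=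
        Finset.sum_le_sum fun j _ => hterm j
    _ = Real.exp (-(500 * 4 ^ κ)) * (1 - (1 / 2) ^ n) := by
        rw [← Finset.mul_sum, geo]
    _ ≤ Real.exp (-(500 * 4 ^ κ)) := by
        apply mul_le_of_le_one_right (Real.exp_pos _).le
        have : (0 : ℝ) ≤ (1 / 2) ^ n := by positivity
        linarith

end Pool.Agent.H87.NR
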