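import Pool.Agent.H87.NR.BAD

/-! # NR: the number of all entries of bad levels -/

set_option autoImplicit false

open MeasureTheory ProbabilityTheory

noncomputable section

open Classical

namespace Pool.Agent.H87.NR

open Pool.Agent.H99.NR

def gk (K L : ℝ) (n k : ℕ) (r : Fin n → ℝ) : ℝ :=
  Real.exp (5 * (cnt K n k r : ℝ) - 600 * (4 ^ k + L))

def hr (K L : ℝ) (n : ℕ) (r : Fin n → ℝ) : ℝ := ∏ k ∈ Finset.range n, (1 + gk K L n k r)

theorem exc_card_le (K L : ℝ) (n : ℕ) (hL : 0 ≤ L) (r : Fin n → ℝ) :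
    (exc K L n r).card ≤ ∑ k ∈ (Finset.range n).filter (fun k => bad K L n k r), cnt K n k r := by
  unfold cnt
  refine le_trans (Finset.card_le_card ?_) Finset.card_biUnion_le
  intro j hj
  unfold exc at hj
  obtain ⟨k, h1, h2⟩ := (Finset.mem_filter.mp hj).2
  rw [Finset.mem_biUnion]
  exact ⟨k, Finset.mem_filter.mpr ⟨Finset.mem_range.mpr (bad_lt hL h2), h2⟩,
    Finset.mem_filter.mpr ⟨Finset.mem_univ _, h1⟩⟩

theorem exp_exc_le (K L : ℝ) (n : ℕ) (hL : 0 ≤ L) (r : Fin n → ℝ) :
    Real.exp (4 * ((exc K L n r).card : ℝ)) ≤ hr K L n r := by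
  have h1 : ((exc K L n r).card : ℝ) ≤
      ∑ k ∈ (Finset.range n).filter (fun k => bad K L n k r), (cnt K n k r : ℝ) := by
    exact_mod_cast exc_card_le K L n hL r
  calc Real.exp (4 * ((exc K L n r).card : ℝ))
      ≤ Real.exp (4 * ∑ k ∈ (Finset.range n).filter (fun k => bad K L n k r),
          (cnt K n k r : ℝ)) := by
        apply Real.exp_le_exp.mpr
        linarith
    _ = ∏ k ∈ (Finset.range n).filter (fun k => bad K L n k r),
          Real.exp (4 * (cnt K n k r : ℝ)) := by
        rw [Finset.mul_sum, Real.exp_sum]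
    _ = ∏ k ∈ Finset.range n, (if bad K L n k r then Real.exp (4 * (cnt K n k r : ℝ)) else 1) := by
        rw [Finset.prod_filter]
    _ ≤ hr K L n r := by
        unfold hr
        apply Finset.prod_le_prod
        · intro k _
          split_ifs
          · exact (Real.exp_pos _).le
          · exact zero_le_one
        · intro k _
          have hg : 0 < gk K L n k r := Real.exp_pos _
          split_ifs with hb
          · have h2 : 600 * (4 ^ k + L) < (cnt K n k r : ℝ) := hb
            have h3 : Real.exp (4 * (cnt K n k r : ℝ)) ≤ gk K L n k r := by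
              apply Real.exp_le_exp.mpr
              linarith
            linarith
          · linarith

theorem prod_gk (K L : ℝ) (n : ℕ) (S : Finset ℕ) (r : Fin n → ℝ) :
    ∏ k ∈ S, gk K L n k r = Real.exp (5 * ∑ k ∈ S, (cnt K n k r : ℝ)) *
      Real.exp (-∑ k ∈ S, 600 * (4 ^ k + L)) := by
  unfold gk
  rw [← Real.exp_sum, ← Real.exp_add]
  congr 1
  rw [Finset.sum_sub_distrib, Finset.mul_sum]
  ring

theorem exp5 : Real.exp 5 < 148.5 := by
  have h1 : Real.exp 5 = Real.exp 1 ^ 5 := by
    rw [← Real.exp_nat_mul]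
    norm_num
  rw [h1]
  have h2 : Real.exp 1 < 2.7182818286 := Real.exp_one_lt_d9
  calc Real.exp 1 ^ 5 ≤ 2.7182818286 ^ 5 := pow_le_pow_left₀ (Real.exp_pos _).le h2.le 5
    _ < 148.5 := by norm_num

theorem hr_int (hJ : S_JNT) (K L : ℝ) (n : ℕ) (ν : Measure ℝ) (hK : 1 ≤ K)
    (hn : 1 ≤ n) (hν : Law K n ν) :
    Integrable (hr K L n) (rowLaw n ν) ∧
      ∫ r, hr K L n r ∂(rowLaw n ν) ≤ Real.exp (Real.exp (-(600 * L))) := by
  have hrew : hr K L n = fun r => ∑ S ∈ (Finset.range n).powerset,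
      Real.exp (5 * ∑ k ∈ S, (cnt K n k r : ℝ)) * Real.exp (-∑ k ∈ S, 600 * (4 ^ k + L)) := by
    funext r
    unfold hr
    rw [Finset.prod_one_add]
    exact Finset.sum_congr rfl fun S _ => prod_gk K L n S r
  have hi : ∀ S : Finset ℕ, Integrable (fun r => Real.exp (5 * ∑ k ∈ S, (cnt K n k r : ℝ)) *
      Real.exp (-∑ k ∈ S, 600 * (4 ^ k + L))) (rowLaw n ν) := fun S =>
    (hJ K n ν hK hn hν 5 S (by norm_num)).1.mul_const _
  rw [hrew]
  refine ⟨integrable_finsetSum _ fun S _ => hi S, ?_⟩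
  rw [integral_finsetSum _ fun S _ => hi S]
  have hq : ∀ S : Finset ℕ, ∫ r, Real.exp (5 * ∑ k ∈ S, (cnt K n k r : ℝ)) *
      Real.exp (-∑ k ∈ S, 600 * (4 ^ k + L)) ∂(rowLaw n ν) ≤
      ∏ k ∈ S, Real.exp (-(10 * 4 ^ k + 600 * L)) := by
    intro S
    rw [integral_mul_const]
    calc (∫ r, Real.exp (5 * ∑ k ∈ S, (cnt K n k r : ℝ)) ∂(rowLaw n ν)) *
          Real.exp (-∑ k ∈ S, 600 * (4 ^ k + L))
        ≤ Real.exp ((Real.exp 5 - 1) * ∑ k ∈ S, (4 : ℝ) ^ (k + 1)) *
          Real.exp (-∑ k ∈ S, 600 * (4 ^ k + L)) := by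
          apply mul_le_mul_of_nonneg_right _ (Real.exp_pos _).le
          exact (hJ K n ν hK hn hν 5 S (by norm_num)).2
      _ = Real.exp (∑ k ∈ S, ((Real.exp 5 - 1) * (4 : ℝ) ^ (k + 1) - 600 * (4 ^ k + L))) := by
          rw [← Real.exp_add]
          congr 1
          rw [Finset.sum_sub_distrib, Finset.mul_sum]
          ring
      _ ≤ Real.exp (∑ k ∈ S, -(10 * 4 ^ k + 600 * L)) := by
          apply Real.exp_le_exp.mpr
          apply Finset.sum_le_sum
          intro k _
          have h1 := exp5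
          have h2 : (0 : ℝ) < 4 ^ k := by positivity
          rw [pow_succ]
          nlinarith
      _ = ∏ k ∈ S, Real.exp (-(10 * 4 ^ k + 600 * L)) := Real.exp_sum _ _
  calc ∑ S ∈ (Finset.range n).powerset, ∫ r, Real.exp (5 * ∑ k ∈ S, (cnt K n k r : ℝ)) *
        Real.exp (-∑ k ∈ S, 600 * (4 ^ k + L)) ∂(rowLaw n ν)
      ≤ ∑ S ∈ (Finset.range n).powerset, ∏ k ∈ S, Real.exp (-(10 * 4 ^ k + 600 * L)) :=
        Finset.sum_le_sum fun S _ => hq S
    _ = ∏ k ∈ Finset.range n, (1 + Real.exp (-(10 * 4 ^ k + 600 * L))) :=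
        (Finset.prod_one_add _).symm
    _ ≤ ∏ k ∈ Finset.range n, Real.exp (Real.exp (-(10 * 4 ^ k + 600 * L))) := by
        apply Finset.prod_le_prod
        · intro k _
          positivity
        · intro k _
          have := Real.add_one_le_exp (Real.exp (-(10 * 4 ^ k + 600 * L)))
          linarith
    _ = Real.exp (∑ k ∈ Finset.range n, Real.exp (-(10 * 4 ^ k + 600 * L))) :=
        (Real.exp_sum _ _).symm
    _ ≤ Real.exp (Real.exp (-(600 * L))) := by
        apply Real.exp_le_exp.mpr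
        calc ∑ k ∈ Finset.range n, Real.exp (-(10 * 4 ^ k + 600 * L))
            ≤ ∑ k ∈ Finset.range n, Real.exp (-(600 * L)) * (1 / 2) ^ (k + 1) := by
              apply Finset.sum_le_sum
              intro k _
              rw [half_exp, ← Real.exp_add]
              apply Real.exp_le_exp.mpr
              have := half_log k
              have h2 : (0 : ℝ) < 4 ^ k := by positivity
              linarith
          _ = Real.exp (-(600 * L)) * (1 - (1 / 2) ^ n) := by
              rw [← Finset.mul_sum, geo]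
          _ ≤ Real.exp (-(600 * L)) := by
              apply mul_le_of_le_one_right (Real.exp_pos _).le
              have : (0 : ℝ) ≤ (1 / 2) ^ n := by positivity
              linarith

theorem t_CNT (hJ : S_JNT) : S_CNT := by
  intro K ε n ν hK hn hε hε6 hν
  obtain ⟨L, hL⟩ : ∃ L, L = Real.log (1 / ε) := ⟨_, rfl⟩
  rw [← hL]
  have hp := hν.prob
  have : IsProbabilityMeasure (rowLaw n ν) := by unfold rowLaw; infer_instance
  have : IsProbabilityMeasure (matLaw n ν) := by unfold matLaw; infer_instance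
  have hexpL : Real.exp (-L) = ε := by
    rw [hL, one_div, Real.log_inv, neg_neg, Real.exp_log hε]
  have hL1 : 1 ≤ L := by
    rw [hL, Real.le_log_iff_exp_le (by positivity)]
    have h1 : Real.exp 1 < 2.7182818286 := Real.exp_one_lt_d9
    have h2 : (6 : ℝ) ≤ 1 / ε := by
      rw [le_div_iff₀ hε]
      linarith
    linarith
  have hsmall : Real.exp (-(600 * L)) ≤ ε / 10 := by
    have h1 : Real.exp (-(600 * L)) = ε * Real.exp (-(599 * L)) := by
      rw [← hexpL, ← Real.exp_add]
      congr 1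
      ring
    have h2 : Real.exp (-(599 * L)) ≤ 1 / 10 := by
      rw [Real.exp_neg, one_div]
      apply inv_anti₀ (by norm_num)
      have := Real.add_one_le_exp (599 * L)
      linarith
    rw [h1]
    nlinarith
  obtain ⟨i1, i2⟩ := hr_int hJ K L n ν hK hn hν
  have j1 : Integrable (fun a : Fin n → Fin n → ℝ => ∏ i, hr K L n (a i)) (matLaw n ν) := by
    unfold matLaw
    exact Integrable.fintype_prod (f := fun (_ : Fin n) r => hr K L n r) (fun _ => i1)
  have hr0 : ∀ r, 0 ≤ hr K L n r := by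
    intro r
    unfold hr
    apply Finset.prod_nonneg
    intro k _
    have : 0 < gk K L n k r := Real.exp_pos _
    linarith
  have j2 : ∫ a, ∏ i, hr K L n (a i) ∂(matLaw n ν) ≤ Real.exp (n * (ε / 10)) := by
    unfold matLaw
    rw [integral_fintype_prod_eq_pow (ι := Fin n) (fun r => hr K L n r), Fintype.card_fin]
    calc (∫ r, hr K L n r ∂(rowLaw n ν)) ^ n ≤ (Real.exp (Real.exp (-(600 * L)))) ^ n :=
          pow_le_pow_left₀ (integral_nonneg hr0) i2 n
      _ = Real.exp (n * Real.exp (-(600 * L))) := by rw [← Real.exp_nat_mul]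
      _ ≤ Real.exp (n * (ε / 10)) := by
          apply Real.exp_le_exp.mpr
          gcongr
  have hsub : {a : Fin n → Fin n → ℝ | ε * n / 4 < ∑ i, ((exc K L n (a i)).card : ℝ)} ⊆
      {a | Real.exp (ε * n) ≤ ∏ i, hr K L n (a i)} := by
    intro a ha
    have ha' : ε * n / 4 < ∑ i, ((exc K L n (a i)).card : ℝ) := ha
    calc Real.exp (ε * n) ≤ Real.exp (4 * ∑ i, ((exc K L n (a i)).card : ℝ)) := by
          apply Real.exp_le_exp.mpr
          linarith
      _ = ∏ i, Real.exp (4 * ((exc K L n (a i)).card : ℝ)) := by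
          rw [Finset.mul_sum, Real.exp_sum]
      _ ≤ ∏ i, hr K L n (a i) := by
          apply Finset.prod_le_prod
          · intro i _
            exact (Real.exp_pos _).le
          · intro i _
            exact exp_exc_le K L n (by linarith) (a i)
  have hm := mul_meas_ge_le_integral_of_nonneg (μ := matLaw n ν)
    (f := fun a => ∏ i, hr K L n (a i)) (Filter.Eventually.of_forall fun a =>
      Finset.prod_nonneg fun i _ => hr0 _) j1 (Real.exp (ε * n))
  have h1 := measureReal_mono (μ := matLaw n ν) hsub (measure_ne_top _ _)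
  have h2 : Real.exp (ε * n) * (matLaw n ν).real {a : Fin n → Fin n → ℝ | ε * n / 4 <
      ∑ i, ((exc K L n (a i)).card : ℝ)} ≤ Real.exp (n * (ε / 10)) :=
    (mul_le_mul_of_nonneg_left h1 (Real.exp_pos _).le).trans (hm.trans j2)
  have h3 : (matLaw n ν).real {a : Fin n → Fin n → ℝ | ε * n / 4 <
      ∑ i, ((exc K L n (a i)).card : ℝ)} ≤ Real.exp (n * (ε / 10) - ε * n) := by
    rw [Real.exp_sub, le_div_iff₀ (Real.exp_pos _), mul_comm]
    exact h2
  refine h3.trans (le_of_eq ?_)
  congr 1
  ring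

end Pool.Agent.H87.NR
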