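import Pool.Agent.H99.NR.Stm

/-! # NR: joint exponential moment of the level counts -/

set_option autoImplicit false

open MeasureTheory ProbabilityTheory

noncomputable section

open Classical

namespace Pool.Agent.H87.NR

open Pool.Agent.H99.NR

/-- number of the levels in `S` of `a` (`0` or `1`) -/
def lev (K : ℝ) (n : ℕ) (S : Finset ℕ) (a : ℝ) : ℝ := ∑ k ∈ S, if inLev K n k a then (1 : ℝ) else 0

theorem inLev_le {K : ℝ} {n k k' : ℕ} {a : ℝ} (h0 : 0 < K * √n) (h : inLev K n k a)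
    (h' : inLev K n k' a) : k' ≤ k := by
  by_contra hcon
  have h1 : (2 : ℝ) ^ (k + 1) ≤ 2 ^ k' := pow_le_pow_right₀ (by norm_num) (by omega)
  have h2 : K * √n / 2 ^ k' ≤ K * √n / 2 ^ (k + 1) :=
    div_le_div_of_nonneg_left h0.le (by positivity) h1
  have h3 := h.1
  have h4 := h'.2
  linarith

theorem inLev_uniq {K : ℝ} {n k k' : ℕ} {a : ℝ} (h0 : 0 < K * √n) (h : inLev K n k a)
    (h' : inLev K n k' a) : k = k' :=
  le_antisymm (inLev_le h0 h' h) (inLev_le h0 h h')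

theorem pos_Kn {K : ℝ} {n : ℕ} (hK : 1 ≤ K) (hn : 1 ≤ n) : 0 < K * √n := by
  have : (0 : ℝ) < n := by exact_mod_cast hn
  positivity

theorem lev_cases {K : ℝ} {n : ℕ} (h0 : 0 < K * √n) (S : Finset ℕ) (a : ℝ) :
    lev K n S a = 0 ∨ (lev K n S a = 1 ∧ ∃ k ∈ S, inLev K n k a) := by
  by_cases h : ∃ k ∈ S, inLev K n k a
  · right
    refine ⟨?_, h⟩
    obtain ⟨k, hk, hka⟩ := h
    unfold lev
    rw [Finset.sum_eq_single k]
    · rw [if_pos hka]
    · intro k' _ hne
      rw [if_neg]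
      intro h'
      exact hne (inLev_uniq h0 h' hka)
    · intro hk'
      exact absurd hk hk'
  · left
    unfold lev
    apply Finset.sum_eq_zero
    intro k hk
    rw [if_neg]
    intro h'
    exact h ⟨k, hk, h'⟩

theorem meas_inLev (K : ℝ) (n k : ℕ) : MeasurableSet {a : ℝ | inLev K n k a} := by
  unfold inLev
  have h1 : Measurable (fun a : ℝ => |a|) := measurable_id.abs
  exact (measurableSet_lt measurable_const h1).inter (measurableSet_le h1 measurable_const)

theorem meas_lev (K : ℝ) (n : ℕ) (S : Finset ℕ) : Measurable (lev K n S) := by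
  unfold lev
  apply Finset.measurable_sum
  intro k _
  exact Measurable.ite (meas_inLev K n k) measurable_const measurable_const

theorem cnt_eq (K : ℝ) (n k : ℕ) (r : Fin n → ℝ) :
    (cnt K n k r : ℝ) = ∑ j, if inLev K n k (r j) then (1 : ℝ) else 0 := by
  unfold cnt
  rw [Finset.card_filter]
  push_cast
  rfl

theorem sum_cnt_eq (K : ℝ) (n : ℕ) (S : Finset ℕ) (r : Fin n → ℝ) :
    ∑ k ∈ S, (cnt K n k r : ℝ) = ∑ j, lev K n S (r j) := by
  unfold lev
  rw [Finset.sum_comm]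
  exact Finset.sum_congr rfl fun k _ => cnt_eq K n k r

theorem exp_lev_le {K : ℝ} {n : ℕ} (hK : 1 ≤ K) (hn : 1 ≤ n) {θ : ℝ} (hθ : 0 ≤ θ) (S : Finset ℕ)
    (a : ℝ) : Real.exp (θ * lev K n S a) ≤
      1 + (Real.exp θ - 1) * ((∑ k ∈ S, (4 : ℝ) ^ (k + 1)) / n) * a ^ 2 := by
  have hn0 : (0 : ℝ) < n := by exact_mod_cast hn
  have he : 0 ≤ Real.exp θ - 1 := by
    have := Real.one_le_exp hθ
    linarith
  have hM : 0 ≤ (∑ k ∈ S, (4 : ℝ) ^ (k + 1)) := Finset.sum_nonneg fun k _ => by positivity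
  rcases lev_cases (pos_Kn hK hn) S a with h | ⟨h, k, hk, hka⟩
  · rw [h, mul_zero, Real.exp_zero]
    have : 0 ≤ (Real.exp θ - 1) * ((∑ k ∈ S, (4 : ℝ) ^ (k + 1)) / n) * a ^ 2 := by positivity
    linarith
  · rw [h, mul_one]
    have h1 : (4 : ℝ) ^ (k + 1) ≤ ∑ k ∈ S, (4 : ℝ) ^ (k + 1) :=
      Finset.single_le_sum (f := fun k => (4 : ℝ) ^ (k + 1)) (fun i _ => by positivity) hk
    have h2 : (K * √n / 2 ^ (k + 1)) ^ 2 ≤ a ^ 2 := by
      rw [← sq_abs a]
      exact pow_le_pow_left₀ (by positivity) hka.1.le 2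
    have h3 : (K * √n / 2 ^ (k + 1)) ^ 2 = K ^ 2 * n / 4 ^ (k + 1) := by
      rw [div_pow, mul_pow, Real.sq_sqrt hn0.le, ← pow_mul, mul_comm (k + 1) 2, pow_mul]
      norm_num
    rw [h3] at h2
    have h4 : (n : ℝ) / 4 ^ (k + 1) ≤ a ^ 2 := by
      refine le_trans ?_ h2
      have : (n : ℝ) ≤ K ^ 2 * n := le_mul_of_one_le_left hn0.le (one_le_pow₀ hK)
      gcongr
    have h5 : 1 ≤ ((∑ k ∈ S, (4 : ℝ) ^ (k + 1)) / n) * a ^ 2 := by
      calc (1 : ℝ) = ((4 : ℝ) ^ (k + 1) / n) * (n / 4 ^ (k + 1)) := by field_simp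
        _ ≤ ((∑ k ∈ S, (4 : ℝ) ^ (k + 1)) / n) * a ^ 2 := by gcongr
    rw [mul_assoc]
    nlinarith [mul_le_mul_of_nonneg_left h5 he]

theorem lev_nonneg (K : ℝ) (n : ℕ) (S : Finset ℕ) (a : ℝ) : 0 ≤ lev K n S a := by
  unfold lev
  apply Finset.sum_nonneg
  intro k _
  split_ifs <;> norm_num

theorem lev_le_one {K : ℝ} {n : ℕ} (h0 : 0 < K * √n) (S : Finset ℕ) (a : ℝ) :
    lev K n S a ≤ 1 := by
  rcases lev_cases h0 S a with h | ⟨h, -⟩ <;> rw [h]
  norm_num

theorem int_exp_lev {K : ℝ} {n : ℕ} {ν : Measure ℝ} (hK : 1 ≤ K) (hn : 1 ≤ n) (hν : Law K n ν)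
    {θ : ℝ} (hθ : 0 ≤ θ) (S : Finset ℕ) :
    Integrable (fun a => Real.exp (θ * lev K n S a)) ν := by
  have := hν.prob
  refine Integrable.mono' (integrable_const (Real.exp θ)) ?_ ?_
  · exact (Real.measurable_exp.comp ((meas_lev K n S).const_mul θ)).aestronglyMeasurable
  · refine Filter.Eventually.of_forall fun a => ?_
    rw [Real.norm_eq_abs, abs_of_pos (Real.exp_pos _)]
    apply Real.exp_le_exp.mpr
    have := lev_le_one (pos_Kn hK hn) S a
    nlinarith

theorem t_JNT : S_JNT := by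
  intro K n ν hK hn hν θ S hθ
  have hp := hν.prob
  have hn0 : (0 : ℝ) < n := by exact_mod_cast hn
  have hrew : (fun r : Fin n → ℝ => Real.exp (θ * ∑ k ∈ S, (cnt K n k r : ℝ))) =
      fun r => ∏ j, Real.exp (θ * lev K n S (r j)) := by
    funext r
    rw [sum_cnt_eq, Finset.mul_sum, Real.exp_sum]
  rw [hrew]
  unfold rowLaw
  constructor
  · exact Integrable.fintype_prod (f := fun (_ : Fin n) a => Real.exp (θ * lev K n S a))
      (fun _ => int_exp_lev hK hn hν hθ S)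
  · rw [integral_fintype_prod_eq_pow (ι := Fin n) (fun a => Real.exp (θ * lev K n S a)),
      Fintype.card_fin]
    have he : 0 ≤ Real.exp θ - 1 := by
      have := Real.one_le_exp hθ
      linarith
    have hM : 0 ≤ (∑ k ∈ S, (4 : ℝ) ^ (k + 1)) := Finset.sum_nonneg fun k _ => by positivity
    obtain ⟨M, hMd⟩ : ∃ M, M = (∑ k ∈ S, (4 : ℝ) ^ (k + 1)) := ⟨_, rfl⟩
    have hsq : Integrable (fun a : ℝ => a ^ 2) ν := integrable_of_integral_eq_one hν.var
    have h1 : ∫ a, Real.exp (θ * lev K n S a) ∂ν ≤ 1 + (Real.exp θ - 1) * (M / n) := by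
      calc ∫ a, Real.exp (θ * lev K n S a) ∂ν
          ≤ ∫ a, (1 + (Real.exp θ - 1) * (M / n) * a ^ 2) ∂ν := by
            apply integral_mono (int_exp_lev hK hn hν hθ S)
              ((integrable_const _).add (hsq.const_mul _))
            intro a
            rw [hMd]
            exact exp_lev_le hK hn hθ S a
        _ = 1 + (Real.exp θ - 1) * (M / n) := by
            rw [integral_add (integrable_const _) (hsq.const_mul _), integral_const_mul, hν.var,
              integral_const]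
            simp
    have h0 : 0 ≤ ∫ a, Real.exp (θ * lev K n S a) ∂ν :=
      integral_nonneg fun a => (Real.exp_pos _).le
    have h2 : 1 + (Real.exp θ - 1) * (M / n) ≤ Real.exp ((Real.exp θ - 1) * (M / n)) := by
      have := Real.add_one_le_exp ((Real.exp θ - 1) * (M / n))
      linarith
    calc (∫ a, Real.exp (θ * lev K n S a) ∂ν) ^ n
        ≤ (Real.exp ((Real.exp θ - 1) * (M / n))) ^ n :=
          pow_le_pow_left₀ h0 (h1.trans h2) n
      _ = Real.exp ((Real.exp θ - 1) * ∑ k ∈ S, (4 : ℝ) ^ (k + 1)) := by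
          rw [← Real.exp_nat_mul, ← hMd]
          congr 1
          field_simp

end Pool.Agent.H87.NR
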